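import Pool.Agent.J6H49.LC.Main

/-!
# A co-sparse set in `NP` which is not low: the main theorem
-/

set_option autoImplicit false

namespace Pool.Agent.J6H49.LC

open Filter Pool.Agent.NPC Pool.Agent.H628R3.RO Pool.Agent.J6H49.OP
open Pool.Agent.TH678.RS (bt)
open Pool.Agent.TH678.GC (join)
open Pool.Agent.Y626.WX (Cp exists_cp)
open Pool.Agent.J6H49.PHC (oracle)
open Pool.Agent.J6H49.AM (IsSigma2)

/-- The set `A` as an oracle. -/
noncomputable def ind (A : Set (List Bool)) : Oracle := by
  classical
  exact fun x => decide (x ∈ A)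

theorem ind_true {A : Set (List Bool)} {x : List Bool} : ind A x = true ↔ x ∈ A := by
  classical
  unfold ind
  rw [decide_eq_true_eq]

theorem ind_false {A : Set (List Bool)} {x : List Bool} : ind A x = false ↔ x ∉ A := by
  rw [← ind_true, Bool.not_eq_true]

/-- the strings `y` such that all the strings of length `|y|` are in `A` -/
def full (A : Set (List Bool)) : Set (List Bool) :=
  {y | ∀ x : List Bool, x.length = y.length → x ∈ A}

theorem isCoNP_full (O : Oracle) (A : Set (List Bool)) : IsCoNP (join O (ind A)) (full A) := by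
  have hu1 : Poly (fun z : List Bool => (unpair z).1) := Poly.fst poly_unpair
  have hu2 : Poly (fun z : List Bool => (unpair z).2) := Poly.snd poly_unpair
  refine ⟨fun z => [decide ((unpair z).2.length = (unpair z).1.length) &&
    decide ([join O (ind A) (true :: (unpair z).2)] = [false])], Polynomial.X, ?_, fun y => ?_⟩
  · refine IsFP.tt (A := join O (ind A)) (Q := fun z => [true :: (unpair z).2])
      (H := fun q => [decide ((unpair q.1).2.length = (unpair q.1).1.length) &&
        decide (q.2 = [false])]) ?_ ?_
    · exact Poly.cons (Poly.cons (NPC.Poly.const _) hu2) (NPC.Poly.const [])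
    · refine Poly.cons (Poly.and ?_ ?_) (NPC.Poly.const [])
      · exact Poly.decide_eq (Poly.length (hu2.comp (Poly.fst Poly.id)))
          (Poly.length (hu1.comp (Poly.fst Poly.id)))
      · exact Poly.decide_eq (Poly.snd Poly.id) (NPC.Poly.const _)
  · constructor
    · intro hy
      have hy' : ¬ ∀ x : List Bool, x.length = y.length → x ∈ A := hy
      push Not at hy'
      obtain ⟨x, h1, h2⟩ := hy'
      refine ⟨x, by rw [Polynomial.eval_X]; omega, ?_⟩
      have h3 : join O (ind A) (true :: x) = false := ind_false.2 h2
      simp [unpair_pairBits, h1, h3]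
    · rintro ⟨x, -, h⟩ hy
      simp only [unpair_pairBits, List.cons.injEq, and_true, Bool.and_eq_true,
        decide_eq_true_eq] at h
      have h3 : ind A x = false := h.2
      exact ind_false.1 h3 (hy x h.1)

theorem isSigma2_full (O : Oracle) (A : Set (List Bool)) :
    IsSigma2 (join O (ind A)) (full A) := by
  have hu1 : Poly (fun z : List Bool => (unpair z).1) := Poly.fst poly_unpair
  have hu2 : Poly (fun z : List Bool => (unpair (unpair z).2).2) :=
    Poly.snd (poly_unpair.comp (Poly.snd poly_unpair))
  refine ⟨fun z => [!(decide ((unpair (unpair z).2).2.length = (unpair z).1.length) &&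
    decide ([join O (ind A) (true :: (unpair (unpair z).2).2)] = [false]))],
    Polynomial.X, ?_, fun y => ?_⟩
  · refine IsFP.tt (A := join O (ind A)) (Q := fun z => [true :: (unpair (unpair z).2).2])
      (H := fun q => [!(decide ((unpair (unpair q.1).2).2.length = (unpair q.1).1.length) &&
        decide (q.2 = [false]))]) ?_ ?_
    · exact Poly.cons (Poly.cons (NPC.Poly.const _) hu2) (NPC.Poly.const [])
    · refine Poly.cons (Poly.not (Poly.and ?_ ?_)) (NPC.Poly.const [])
      · exact Poly.decide_eq (Poly.length (hu2.comp (Poly.fst Poly.id)))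
          (Poly.length (hu1.comp (Poly.fst Poly.id)))
      · exact Poly.decide_eq (Poly.snd Poly.id) (NPC.Poly.const _)
  · constructor
    · intro hy
      refine ⟨[], Nat.zero_le _, fun x _ => ?_⟩
      simp only [unpair_pairBits, List.cons.injEq, and_true, Bool.not_eq_true',
        Bool.and_eq_false_iff, decide_eq_false_iff_not]
      by_cases h : x.length = y.length
      · right
        intro h3
        have h4 : ind A x = false := h3
        exact ind_false.1 h4 (hy x h)
      · left
        exact h
    · rintro ⟨u, -, h⟩ x hx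
      have h1 := h x (by rw [Polynomial.eval_X]; omega)
      simp only [unpair_pairBits, List.cons.injEq, and_true, Bool.not_eq_true',
        Bool.and_eq_false_iff, decide_eq_false_iff_not] at h1
      rcases h1 with h1 | h1
      · exact absurd hx h1
      · by_contra h2
        exact h1 (ind_false.2 h2)

theorem main (α f : ℕ → ℕ) (hα : Monotone α) (hα' : Tendsto α atTop atTop) (hf : Monotone f)
    (hf' : Tendsto f atTop atTop) (C : Oracle) :
    ∃ (O : Oracle) (A : Set (List Bool)), NearlyCollapsed α O ∧ Contains O C ∧ IsNP O A ∧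
      (∀ n, {x : List Bool | x ∉ A ∧ x.length ≤ n}.ncard ≤ f n) ∧
      ∃ L, IsCoNP (join O (ind A)) L ∧ IsSigma2 (join O (ind A)) L ∧ ¬ IsSigma2 O L := by
  classical
  obtain ⟨g, hg⟩ := Pool.Agent.H620R2.Gauge.CC.exists_enum
  obtain ⟨S, Φ, hc⟩ := exists_cp g (bt (slow2 α))
  have h1 := slow2_mono hα
  have h2 := slow2_tendsto hα'
  obtain ⟨e, he⟩ := exists_surjective_nat (Alg × Alg)
  obtain ⟨c, hlen, hfew, herr⟩ := limit hc h1 h2 hf hf' C fun i => ((e i).1, (e i).2.p)
  set O := oracle Φ C (ora c) with hO
  set A : Set (List Bool) := {x | c x ≠ none} with hA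
  refine ⟨O, A, nearly hg hα hc (join (ora c) C), ⟨[false, true], fun x => rfl⟩, ?_, ?_,
    full A, isCoNP_full O A, isSigma2_full O A, ?_⟩
  · refine ⟨fun y => [O ([false, false] ++ y)], Polynomial.X, ?_, fun x => ?_⟩
    · exact IsFP.tt (Q := fun y => [[false, false] ++ y]) (H := fun p => p.2)
        (Poly.cons (Poly.append (NPC.Poly.const _) Poly.id) (NPC.Poly.const []))
        (Poly.snd Poly.id)
    · constructor
      · intro hx
        obtain ⟨u, hu⟩ := Option.ne_none_iff_exists'.1 hx
        refine ⟨u, ?_, ?_⟩
        · rw [Polynomial.eval_X, hlen x u hu]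
        · show [ora c (pairBits x u)] = [true]
          rw [List.cons.injEq, and_iff_left rfl]
          exact ora_pair.2 hu
      · rintro ⟨u, -, hu⟩
        change [ora c (pairBits x u)] = [true] at hu
        rw [List.cons.injEq, and_iff_left rfl] at hu
        have h3 := ora_pair.1 hu
        show c x ≠ none
        rw [h3]
        simp
  · intro n
    have h3 : {x : List Bool | x ∉ A ∧ x.length ≤ n} = miss c n := by
      ext x
      simp [hA, miss]
    rw [h3]
    exact hfew n
  · rintro ⟨V, p, ⟨M, hM⟩, hV⟩
    obtain ⟨i, hi⟩ := he (M, ⟨M.D, M.poly, p⟩)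
    obtain ⟨n, hn⟩ := herr i
    rw [hi] at hn
    apply hn
    have h3 := hV (List.replicate n true)
    rw [List.length_replicate] at h3
    constructor
    · intro h
      obtain ⟨u, hu, h4⟩ := h3.1 (by
        intro x hx
        rw [List.length_replicate] at hx
        exact h x hx)
      exact ⟨u, hu, fun v hv => by rw [← hO, hM, h4 v hv]⟩
    · rintro ⟨u, hu, h4⟩ x hx
      refine h3.2 ⟨u, hu, fun v hv => ?_⟩ x (by rw [List.length_replicate]; exact hx)
      have h5 := h4 v hv
      rw [← hO, hM, Option.some.injEq] at h5
      exact h5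

end Pool.Agent.J6H49.LC
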