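import Pool.Agent.J6H49.LC.Stage
import Pool.Agent.J6H49.OP.Time
import Pool.Agent.J6H49.AM.Defs
import Pool.Agent.H620R2.Gauge.C

/-!
# A co-sparse set in `NP` which is not low
-/

set_option autoImplicit false

namespace Pool.Agent.J6H49.LC

open Filter Pool.Agent.NPC Pool.Agent.H628R3.RO Pool.Agent.J6H49.OP
open Pool.Agent.TH678.RS (bt)
open Pool.Agent.TH678.GC (join)
open Pool.Agent.Y626.WX (Cp exists_cp)
open Pool.Agent.J6H49.PHC (oracle)
open Pool.Agent.J6H49.AM (IsSigma2)

/-- the strings of length at most `n` without a secret -/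
def miss (c : List Bool → Option (List Bool)) (n : ℕ) : Set (List Bool) :=
  {x | c x = none ∧ x.length ≤ n}

theorem finite_le (n : ℕ) : {x : List Bool | x.length ≤ n}.Finite := List.finite_length_le Bool n

theorem finite_miss (c : List Bool → Option (List Bool)) (n : ℕ) : (miss c n).Finite :=
  (finite_le n).subset fun _ h => h.2

/-- a stage of the construction -/
structure St (f : ℕ → ℕ) : Type where
  /-- the secrets of the strings of length at most `ℓ` are final -/
  ℓ : ℕ
  /-- the secrets -/
  c : List Bool → Option (List Bool)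
  /-- a secret has the length of the string -/
  len : ∀ x u, c x = some u → u.length = x.length
  /-- the longer strings have secrets -/
  dflt : ∀ x : List Bool, ℓ < x.length → c x ≠ none
  /-- few strings have no secret -/
  few : ∀ n, (miss c n).ncard ≤ f n

variable {α : ℕ → ℕ} {g : ℕ → Pool.Agent.H620R2.Gauge.SAlg × Polynomial ℕ}
  {S : ℕ → Polynomial ℕ} {Φ : Oracle → Oracle} {f : ℕ → ℕ}

/-- the machine errs on `1 ^ n` -/
def Errs (Φ : Oracle → Oracle) (C : Oracle) (V : Alg) (p : Polynomial ℕ)
    (c : List Bool → Option (List Bool)) : Prop :=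
  ∃ n, ¬ ((∀ x : List Bool, x.length = n → c x ≠ none) ↔
    Acc V (p.eval n) (oracle Φ C (ora c)) n)

theorem ora_loc {c c' : List Bool → Option (List Bool)} {ℓ : ℕ}
    (h : ∀ x : List Bool, x.length ≤ ℓ → c' x = c x) {y : List Bool} (hy : y.length ≤ ℓ) :
    ora c' y = ora c y := by
  apply bool_eq
  rw [ora_iff, ora_iff]
  constructor
  · rintro ⟨x, u, rfl, h1⟩
    rw [length_pb] at hy
    exact ⟨x, u, rfl, by rw [← h x (by omega)]; exact h1⟩
  · rintro ⟨x, u, rfl, h1⟩
    rw [length_pb] at hy
    exact ⟨x, u, rfl, by rw [h x (by omega)]; exact h1⟩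

theorem acc_loc (hc : Cp g S (bt α) Φ) (C : Oracle) (V : Alg) {n m ℓ : ℕ}
    (hz : ∀ z : List Bool, z.length ≤ 2 * n + 2 + 3 * m → (OP.qb V).eval z.length ≤ ℓ)
    {c c' : List Bool → Option (List Bool)} (h : ∀ x : List Bool, x.length ≤ ℓ → c' x = c x) :
    Acc V m (oracle Φ C (ora c')) n ↔ Acc V m (oracle Φ C (ora c)) n := by
  have key : ∀ a b : List Bool, a.length ≤ m → b.length ≤ m →
      V.out (oracle Φ C (ora c')) (pairBits (List.replicate n true) (pairBits a b)) =
        V.out (oracle Φ C (ora c)) (pairBits (List.replicate n true) (pairBits a b)) := by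
    intro a b ha hb
    refine out_loc hc V (fun u _ => rfl) (fun u hu => ora_loc h hu) (hz _ ?_)
    rw [length_pb, length_pb, List.length_replicate]
    omega
  unfold Acc
  constructor
  · rintro ⟨u, hu, h1⟩
    exact ⟨u, hu, fun v hv => by rw [← key u v hu hv]; exact h1 v hv⟩
  · rintro ⟨u, hu, h1⟩
    exact ⟨u, hu, fun v hv => by rw [key u v hu hv]; exact h1 v hv⟩

theorem exists_n (hα : Monotone α) (hα' : Tendsto α atTop atTop) (hf' : Tendsto f atTop atTop)
    (V : Alg) (p : Polynomial ℕ) (N F : ℕ) : ∃ n, N < n ∧ 1 ≤ n ∧ F ≤ f n ∧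
      (∀ z : List Bool, z.length ≤ 2 * n + 2 + 3 * p.eval n →
        (OP.qb V).eval z.length ≤ lam α n) ∧
      2 * (2 * p.eval n + 2) ^ 2 * (V.p.eval (2 * n + 2 + 3 * p.eval n) + 1 + 1) ≤ 2 ^ n ∧
      2 * (V.p.eval (2 * n + 2 + 3 * p.eval n) + 1) ≤ 2 ^ n := by
  have h1 := le_lam hα hα' ((OP.qb V).comp (2 * Polynomial.X + 2 + 3 * p))
  obtain ⟨N₁, h2⟩ := Pool.Agent.J6H54.RO.poly_le_two_pow
    (2 * (2 * p + 2) ^ 2 * (V.p.comp (2 * Polynomial.X + 2 + 3 * p) + 1 + 1))
  obtain ⟨N₂, h3⟩ := Pool.Agent.J6H54.RO.poly_le_two_pow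
    (2 * (V.p.comp (2 * Polynomial.X + 2 + 3 * p) + 1))
  obtain ⟨n, h4, h5, h6, h7, h8, h9⟩ := ((h1.and ((hf'.eventually_ge_atTop F).and
    ((eventually_gt_atTop N).and ((eventually_ge_atTop 1).and
      ((eventually_ge_atTop N₁).and (eventually_ge_atTop N₂)))))).exists)
  have h2 := h2 n h8
  have h3 := h3 n h9
  simp only [Polynomial.eval_comp, Polynomial.eval_add, Polynomial.eval_mul, Polynomial.eval_pow,
    Polynomial.eval_X, Polynomial.eval_ofNat, Polynomial.eval_one] at h4 h2 h3
  refine ⟨n, h6, h7, h5, fun z hz => ?_, by omega, by omega⟩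
  exact (Pool.Agent.NPC.eval_mono _ hz).trans h4

/-- **One step.** -/
theorem step (hc : Cp g S (bt α) Φ) (hα : Monotone α) (hα' : Tendsto α atTop atTop)
    (hf : Monotone f) (hf' : Tendsto f atTop atTop) (C : Oracle) (V : Alg) (p : Polynomial ℕ)
    (s : St f) : ∃ s' : St f, s.ℓ < s'.ℓ ∧ (∀ x : List Bool, x.length ≤ s.ℓ → s'.c x = s.c x) ∧
      ∀ c : List Bool → Option (List Bool),
        (∀ x : List Bool, x.length ≤ s'.ℓ → c x = s'.c x) → Errs Φ C V p c := by
  classical
  obtain ⟨n, hn1, hn2, hn3, hn4, hn5, hn6⟩ := exists_n hα hα' hf' V p s.ℓ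
    ((miss s.c s.ℓ).ncard + 1)
  set m := p.eval n with hm
  obtain ⟨w, hw⟩ := stage hc C V (K := V.p.eval (2 * n + 2 + 3 * m)) (m := m) hn2 hn4
    (fun z hz => Pool.Agent.NPC.eval_mono _ hz) hn5 hn6 s.c
  -- the new stage
  obtain ⟨o, hon, ho⟩ : ∃ o : Option (List Bool), (∀ x, o = some x → x.length = n) ∧
      ¬ (o = none ↔ Acc V m (oracle Φ C (ora (cw s.c n w o))) n) := by
    rcases hw with hw | ⟨x₀, hw⟩
    · exact ⟨none, by simp, by tauto⟩
    · refine ⟨some x₀.1, fun x hx => ?_, by simp [hw]⟩
      rw [Option.some.injEq] at hx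
      rw [← hx]
      exact x₀.2
  set ℓ' := max (n + 1) ((OP.qb V).eval (2 * n + 2 + 3 * m)) with hℓ
  have hmsub : ∀ k, miss (cw s.c n w o) k ⊆ miss s.c s.ℓ ∪ (if n ≤ k then {x | o = some x} else ∅) := by
    rintro k x ⟨h1, h2⟩
    unfold cw at h1
    by_cases hx : x.length = n
    · rw [dif_pos hx] at h1
      right
      rw [if_pos (by omega)]
      by_contra h3
      rw [if_neg (fun h4 => h3 h4.symm)] at h1
      simp at h1
    · rw [dif_neg hx] at h1
      left
      refine ⟨h1, ?_⟩
      by_contra h3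
      exact s.dflt x (by omega) h1
  have hfew : ∀ k, (miss (cw s.c n w o) k).ncard ≤ f k := by
    intro k
    by_cases hk : n ≤ k
    · have hfin : ({x | o = some x} : Set (List Bool)).Finite := by
        rcases o with _ | y
        · simp
        · refine (Set.finite_singleton y).subset fun x hx => ?_
          have hx' : some y = some x := hx
          rw [Option.some.injEq] at hx'
          exact hx'.symm
      have h1 : ({x | o = some x} : Set (List Bool)).ncard ≤ 1 := by
        rw [Set.ncard_le_one_iff hfin]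
        intro a b ha hb
        have ha' : o = some a := ha
        have hb' : o = some b := hb
        rw [ha', Option.some.injEq] at hb'
        exact hb'
      have h2 := hmsub k
      rw [if_pos hk] at h2
      calc _ ≤ (miss s.c s.ℓ ∪ {x | o = some x}).ncard := by
            exact Set.ncard_le_ncard h2 ((finite_miss _ _).union hfin)
        _ ≤ (miss s.c s.ℓ).ncard + ({x | o = some x} : Set (List Bool)).ncard :=
            Set.ncard_union_le _ _
        _ ≤ (miss s.c s.ℓ).ncard + 1 := by omega
        _ ≤ f n := hn3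
        _ ≤ f k := hf hk
    · have h2 : miss (cw s.c n w o) k ⊆ miss s.c k := by
        rintro x ⟨h1, h3⟩
        unfold cw at h1
        rw [dif_neg (by omega)] at h1
        exact ⟨h1, h3⟩
      exact (Set.ncard_le_ncard h2 (finite_miss _ _)).trans (s.few k)
  refine ⟨⟨ℓ', cw s.c n w o, ?_, ?_, hfew⟩, ?_, ?_, ?_⟩
  · intro x u h
    unfold cw at h
    by_cases hx : x.length = n
    · rw [dif_pos hx] at h
      split_ifs at h
      rw [Option.some.injEq] at h
      rw [← h, hx]
      exact (w ⟨x, hx⟩).2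
    · rw [dif_neg hx] at h
      exact s.len x u h
  · intro x hx
    have hx1 : n < x.length := by omega
    unfold cw
    rw [dif_neg (by omega)]
    exact s.dflt x (by omega)
  · show s.ℓ < ℓ'
    omega
  · intro x hx
    show cw s.c n w o x = s.c x
    unfold cw
    rw [dif_neg (by omega)]
  · intro c hcc
    refine ⟨n, ?_⟩
    have h1 := acc_loc hc C V (n := n) (m := m) (ℓ := ℓ') (fun z hz =>
      (Pool.Agent.NPC.eval_mono _ hz).trans (le_max_right _ _)) hcc
    rw [← hm, h1]
    have h2 : (∀ x : List Bool, x.length = n → c x ≠ none) ↔ o = none := by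
      constructor
      · intro h
        cases o with
        | none => rfl
        | some x =>
          exfalso
          have hx := hon x rfl
          apply h x hx
          rw [hcc x (by show x.length ≤ ℓ'; omega)]
          show cw s.c n w (some x) x = none
          unfold cw
          rw [dif_pos hx, if_pos rfl]
      · rintro rfl x hx
        rw [hcc x (by show x.length ≤ ℓ'; omega)]
        show cw s.c n w none x ≠ none
        unfold cw
        rw [dif_pos hx, if_neg (by simp)]
        simp
    rw [h2]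
    exact ho

/-- the limit -/
theorem limit (hc : Cp g S (bt α) Φ) (hα : Monotone α) (hα' : Tendsto α atTop atTop)
    (hf : Monotone f) (hf' : Tendsto f atTop atTop) (C : Oracle) (e : ℕ → Alg × Polynomial ℕ) :
    ∃ c : List Bool → Option (List Bool), (∀ x u, c x = some u → u.length = x.length) ∧
      (∀ n, (miss c n).ncard ≤ f n) ∧ ∀ i, Errs Φ C (e i).1 (e i).2 c := by
  choose nx hx1 hx2 hx3 using fun (i : ℕ) (s : St f) =>
    step hc hα hα' hf hf' C (e i).1 (e i).2 s
  have hm0 : ∀ n, miss (fun x => some x) n = ∅ := by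
    intro n
    ext x
    simp [miss]
  let s₀ : St f := ⟨0, fun x => some x, by
    intro x u h
    rw [Option.some.injEq] at h
    rw [h], by simp, fun n => by rw [hm0]; simp⟩
  let s : ℕ → St f := fun i => Nat.rec s₀ (fun i s => nx i s) i
  have hs : ∀ i, s (i + 1) = nx i (s i) := fun i => rfl
  have hℓ : ∀ i, i ≤ (s i).ℓ := by
    intro i
    induction i with
    | zero => exact Nat.zero_le _
    | succ i ih =>
      rw [hs]
      exact Nat.succ_le_of_lt (ih.trans_lt (hx1 i (s i)))
  have hmono : ∀ i j, i ≤ j → (s i).ℓ ≤ (s j).ℓ ∧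
      ∀ x : List Bool, x.length ≤ (s i).ℓ → (s j).c x = (s i).c x := by
    intro i j hij
    induction j, hij using Nat.le_induction with
    | base => exact ⟨le_rfl, fun _ _ => rfl⟩
    | succ j hij ih =>
      rw [hs]
      refine ⟨ih.1.trans (hx1 j (s j)).le, fun x hx => ?_⟩
      rw [hx2 j (s j) x (hx.trans ih.1)]
      exact ih.2 x hx
  set c : List Bool → Option (List Bool) := fun x => (s x.length).c x with hcdef
  have hcs : ∀ i (x : List Bool), x.length ≤ (s i).ℓ → c x = (s i).c x := by
    intro i x hx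
    rcases le_total i x.length with h | h
    · exact (hmono i _ h).2 x hx
    · exact ((hmono _ i h).2 x (hℓ _)).symm
  refine ⟨c, fun x u h => (s x.length).len x u h, fun n => ?_, fun i => ?_⟩
  · have h1 : miss c n = miss (s n).c n := by
      ext x
      constructor
      · rintro ⟨h1, h2⟩
        exact ⟨by rw [← hcs n x (h2.trans (hℓ n))]; exact h1, h2⟩
      · rintro ⟨h1, h2⟩
        exact ⟨by rw [hcs n x (h2.trans (hℓ n))]; exact h1, h2⟩
    rw [h1]
    exact (s n).few n
  · exact hx3 i (s i) c fun x hx => hcs (i + 1) x hx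

end Pool.Agent.J6H49.LC
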