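import Mathlib

/-!
# Sets of functions with local constraints are small

The satisfiability coding lemma of Paturi, Pudlák and Zane, in the form which we need: a simple
counting argument with a fixed small set of coordinates.
-/

set_option autoImplicit false

namespace Pool.Agent.J6H49.LC

open Finset

variable {X Y : Type} [Fintype X] [DecidableEq X] [Fintype Y] [DecidableEq Y]

/-- the number of the tuples with a given bad pair -/
theorem card_pair {t k : ℕ} (T : X → Finset X) (hT : ∀ x, (T x).card ≤ k) {i j : Fin t}
    (hij : i ≠ j) :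
    (univ.filter fun e : Fin t → X => e j ∈ T (e i)).card ≤ k * Fintype.card X ^ (t - 1) := by
  classical
  set s := univ.filter fun e : Fin t → X => e j ∈ T (e i) with hs
  set f : (Fin t → X) → ({m : Fin t // m ≠ j} → X) := fun e m => e m with hf
  have h1 : s.card ≤ k * (s.image f).card := by
    refine Finset.card_le_mul_card_image (f := f) s k fun r _ => ?_
    refine (Finset.card_le_card_of_injOn (t := T (r ⟨i, hij⟩)) (fun e => e j) ?_ ?_).trans (hT _)
    · intro e he
      have he := Finset.mem_coe.1 he
      rw [Finset.mem_filter, hs, Finset.mem_filter] at he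
      have h2 : e i = r ⟨i, hij⟩ := congrFun he.2 ⟨i, hij⟩
      rw [← h2]
      exact he.1.2
    · intro e he e' he' hee
      have he := Finset.mem_coe.1 he
      have he' := Finset.mem_coe.1 he'
      rw [Finset.mem_filter] at he he'
      funext m
      by_cases h : m = j
      · subst h
        exact hee
      · exact congrFun (he.2.trans he'.2.symm) ⟨m, h⟩
  refine h1.trans (Nat.mul_le_mul_left _ ?_)
  refine (Finset.card_le_univ _).trans ?_
  rw [Fintype.card_fun]
  have h3 : Fintype.card {m : Fin t // m ≠ j} = t - 1 := by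
    simp
  rw [h3]

/-- the number of the tuples with a bad pair -/
theorem card_bad {t k : ℕ} (T : X → Finset X) (hT : ∀ x, (T x).card ≤ k)
    (hM : 2 * t ^ 2 * k ≤ Fintype.card X) :
    2 * (univ.filter fun e : Fin t → X => ∃ i j, i ≠ j ∧ e j ∈ T (e i)).card ≤
      Fintype.card X ^ t := by
  classical
  have h1 : (univ.filter fun e : Fin t → X => ∃ i j, i ≠ j ∧ e j ∈ T (e i)) ⊆
      (univ.filter fun q : Fin t × Fin t => q.1 ≠ q.2).biUnion
        fun q => univ.filter fun e : Fin t → X => e q.2 ∈ T (e q.1) := by
    intro e he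
    rw [Finset.mem_filter] at he
    obtain ⟨-, i, j, hij, h⟩ := he
    rw [Finset.mem_biUnion]
    exact ⟨(i, j), by simp [hij], by simp [h]⟩
  have h2 : (univ.filter fun e : Fin t → X => ∃ i j, i ≠ j ∧ e j ∈ T (e i)).card ≤
      t ^ 2 * (k * Fintype.card X ^ (t - 1)) := by
    refine (Finset.card_le_card h1).trans (Finset.card_biUnion_le.trans ?_)
    refine (Finset.sum_le_card_nsmul _ _ (k * Fintype.card X ^ (t - 1)) fun q hq => ?_).trans ?_
    · rw [Finset.mem_filter] at hq
      exact card_pair T hT hq.2
    · rw [smul_eq_mul]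
      refine Nat.mul_le_mul_right _ ((Finset.card_le_univ _).trans ?_)
      rw [Fintype.card_prod, Fintype.card_fin, pow_two]
  rcases Nat.eq_zero_or_pos t with h0 | h0
  · subst h0
    have : (univ.filter fun e : Fin 0 → X => ∃ i j, i ≠ j ∧ e j ∈ T (e i)) = ∅ := by
      rw [Finset.filter_eq_empty_iff]
      rintro e - ⟨i, -⟩
      exact i.elim0
    rw [this]
    simp
  · have h3 : Fintype.card X ^ t = Fintype.card X * Fintype.card X ^ (t - 1) := by
      rw [← pow_succ']
      congr 1
      omega
    rw [h3]
    calc 2 * _ ≤ 2 * (t ^ 2 * (k * Fintype.card X ^ (t - 1))) := Nat.mul_le_mul_left _ h2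
      _ = (2 * t ^ 2 * k) * Fintype.card X ^ (t - 1) := by ring
      _ ≤ _ := Nat.mul_le_mul_right _ hM

/-- **Local constraints.** If for every function `w` in `F` and for every `x` the value at `x` of
the functions in `F` which agree with `w` on the small set `R w x` is in the small set `U w x`, then
`F` is small. -/
theorem ppz (F : Finset (X → Y)) (R : (X → Y) → X → Finset X) (U : (X → Y) → X → Finset Y)
    (k t : ℕ) (hR : ∀ w ∈ F, ∀ x, (R w x).card ≤ k) (hx : ∀ w ∈ F, ∀ x, x ∉ R w x)
    (hU : ∀ w ∈ F, ∀ x, (U w x).card ≤ k)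
    (hF : ∀ w ∈ F, ∀ w' ∈ F, ∀ x, (∀ y ∈ R w x, w' y = w y) → w' x ∈ U w x)
    (hM : 2 * t ^ 2 * (k + 1) ≤ Fintype.card X) :
    F.card ≤ 2 * (k ^ t * Fintype.card Y ^ (Fintype.card X - t)) := by
  classical
  -- the bad tuples
  set B : (X → Y) → Finset (Fin t → X) := fun w =>
    univ.filter fun e : Fin t → X => ∃ i j, i ≠ j ∧ e j ∈ insert (e i) (R w (e i)) with hB
  have hBc : ∀ w ∈ F, 2 * (B w).card ≤ Fintype.card X ^ t := by
    intro w hw
    refine card_bad (fun x => insert x (R w x)) (fun x => ?_) hM
    exact (Finset.card_insert_le _ _).trans (Nat.add_le_add_right (hR w hw x) 1)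
  obtain ⟨e, he⟩ : ∃ e : Fin t → X, 2 * (F.filter fun w => e ∈ B w).card ≤ F.card := by
    by_contra hcon
    push Not at hcon
    have h1 : ∑ e : Fin t → X, 2 * (F.filter fun w => e ∈ B w).card ≤
        F.card * Fintype.card X ^ t := by
      have h2 : ∑ e : Fin t → X, (F.filter fun w => e ∈ B w).card = ∑ w ∈ F, (B w).card := by
        simp only [Finset.card_filter]
        rw [Finset.sum_comm]
        refine Finset.sum_congr rfl fun w _ => ?_
        rw [← Finset.card_filter]
        congr 1
        ext e
        simp
      rw [← Finset.mul_sum, h2, Finset.mul_sum]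
      exact Finset.sum_le_card_nsmul _ _ _ hBc
    rcases isEmpty_or_nonempty (Fin t → X) with h0 | h0
    · have hX : IsEmpty X := by
        rw [isEmpty_iff]
        intro x
        exact h0.false fun _ => x
      have ht : t ≠ 0 := by
        rintro rfl
        exact h0.false fun i => i.elim0
      have : 0 < 2 * t ^ 2 * (k + 1) := by positivity
      rw [Fintype.card_eq_zero] at hM
      omega
    · have h3 : ∑ _e : Fin t → X, F.card < ∑ e : Fin t → X, 2 * (F.filter fun w => e ∈ B w).card :=
        Finset.sum_lt_sum_of_nonempty Finset.univ_nonempty fun e _ => hcon e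
      rw [Finset.sum_const, Finset.card_univ, Fintype.card_fun, Fintype.card_fin, smul_eq_mul,
        mul_comm] at h3
      omega
  -- the functions for which `e` is good
  set G := F.filter fun w => e ∉ B w with hG
  have h1 : (F.filter fun w => e ∈ B w).card + G.card = F.card :=
    Finset.card_filter_add_card_filter_not _
  suffices h2 : G.card ≤ k ^ t * Fintype.card Y ^ (Fintype.card X - t) by omega
  rcases G.eq_empty_or_nonempty with h0 | ⟨w₁, hw₁⟩
  · rw [h0]
    simp
  have hgood : ∀ w ∈ G, ∀ i j, i ≠ j → e j ≠ e i ∧ e j ∉ R w (e i) := by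
    intro w hw i j hij
    rw [hG, Finset.mem_filter] at hw
    have h2 := hw.2
    rw [hB] at h2
    simp only [Finset.mem_filter, Finset.mem_univ, true_and, not_exists, not_and] at h2
    have h3 := h2 i j hij
    rw [Finset.mem_insert] at h3
    push Not at h3
    exact h3
  have hinj : Function.Injective e := by
    intro i j h
    by_contra hij
    exact (hgood w₁ hw₁ i j hij).1 h.symm
  set f : (X → Y) → ({x // x ∉ Set.range e} → Y) := fun w x => w x with hf
  have h3 : G.card ≤ k ^ t * (G.image f).card := by
    refine Finset.card_le_mul_card_image (f := f) G _ fun r hr => ?_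
    obtain ⟨w, hw, rfl⟩ := Finset.mem_image.1 hr
    have hwF : w ∈ F := (Finset.mem_filter.1 hw).1
    refine (Finset.card_le_card_of_injOn (t := Fintype.piFinset fun i => U w (e i))
      (fun w' i => w' (e i)) ?_ ?_).trans ?_
    · intro w' hw'
      have hw' := Finset.mem_coe.1 hw'
      rw [Finset.mem_filter] at hw'
      rw [Finset.mem_coe, Fintype.mem_piFinset]
      intro i
      refine hF w hwF w' (Finset.mem_filter.1 hw'.1).1 (e i) fun y hy => ?_
      have hy' : y ∉ Set.range e := by
        rintro ⟨j, rfl⟩
        by_cases hij : i = j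
        · subst hij
          exact hx w hwF _ hy
        · exact (hgood w hw i j hij).2 hy
      exact congrFun hw'.2 ⟨y, hy'⟩
    · intro w' hw' w'' hw'' h
      have hw' := Finset.mem_coe.1 hw'
      have hw'' := Finset.mem_coe.1 hw''
      rw [Finset.mem_filter] at hw' hw''
      funext x
      by_cases hxe : x ∈ Set.range e
      · obtain ⟨i, rfl⟩ := hxe
        exact congrFun h i
      · exact congrFun (hw'.2.trans hw''.2.symm) ⟨x, hxe⟩
    · rw [Fintype.card_piFinset]
      calc _ ≤ ∏ _i : Fin t, k := Finset.prod_le_prod' fun i _ => hU w hwF _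
        _ = k ^ t := by simp
  refine h3.trans (Nat.mul_le_mul_left _ ((Finset.card_le_univ _).trans ?_))
  rw [Fintype.card_fun]
  have h4 : Fintype.card {x // x ∉ Set.range e} = Fintype.card X - t := by
    rw [Fintype.card_subtype_compl]
    congr 1
    have : Fintype.card {x // x ∈ Set.range e} = Fintype.card (Fin t) :=
      (Fintype.card_congr (Equiv.ofInjective e hinj)).symm
    rw [this, Fintype.card_fin]
  rw [h4]

end Pool.Agent.J6H49.LC
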