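import Pool.Agent.J6H49.LC.Ppz
import Pool.Agent.J6H49.OP.Late

/-!
# One stage: a machine with two quantifiers errs
-/

set_option autoImplicit false

namespace Pool.Agent.J6H49.LC

open Filter Finset Pool.Agent.NPC Pool.Agent.H628R3.RO Pool.Agent.J6H49.OP
open Pool.Agent.TH678.RS (bt)
open Pool.Agent.Y626.WX (Cp)
open Pool.Agent.J6H49.PHC (oracle)

/-- the oracle of a table of secrets -/
noncomputable def ora (c : List Bool → Option (List Bool)) : Oracle := by
  classical
  exact fun y => decide (∃ x u, y = pairBits x u ∧ c x = some u)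

theorem ora_iff {c : List Bool → Option (List Bool)} {y : List Bool} :
    ora c y = true ↔ ∃ x u, y = pairBits x u ∧ c x = some u := by
  classical
  unfold ora
  rw [decide_eq_true_eq]

theorem pairBits_inj {x x' u u' : List Bool} (h : pairBits x u = pairBits x' u') :
    x = x' ∧ u = u' := by
  have h1 := congrArg unpair h
  rw [unpair_pairBits, unpair_pairBits, Prod.mk.injEq] at h1
  exact h1

theorem ora_pair {c : List Bool → Option (List Bool)} {x u : List Bool} :
    ora c (pairBits x u) = true ↔ c x = some u := by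
  rw [ora_iff]
  constructor
  · rintro ⟨x', u', h1, h2⟩
    obtain ⟨rfl, rfl⟩ := pairBits_inj h1
    exact h2
  · intro h
    exact ⟨x, u, rfl, h⟩

theorem bool_eq {a b : Bool} (h : a = true ↔ b = true) : a = b := by
  cases a <;> cases b <;> simp_all

/-- change the secrets of the strings of length `n`: `w` gives the new ones, that of `x₀` is
deleted -/
noncomputable def cw (c : List Bool → Option (List Bool)) (n : ℕ)
    (w : List.Vector Bool n → List.Vector Bool n) (x₀ : Option (List Bool)) :
    List Bool → Option (List Bool) := fun x =>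
  if h : x.length = n then (if some x = x₀ then none else some (w ⟨x, h⟩).1) else c x

theorem length_pb (x w : List Bool) : (pairBits x w).length = 2 * x.length + 1 + w.length := by
  simp [pairBits]
  induction x with
  | nil => simp; omega
  | cons a x ih => simp; omega

/-- the machine accepts: there is `u` such that for all `v` ... -/
def Acc (V : Alg) (m : ℕ) (B : Oracle) (n : ℕ) : Prop :=
  ∃ u : List Bool, u.length ≤ m ∧ ∀ v : List Bool, v.length ≤ m →
    V.out B (pairBits (List.replicate n true) (pairBits u v)) = some [true]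

section

variable {α : ℕ → ℕ} {g : ℕ → Pool.Agent.H620R2.Gauge.SAlg × Polynomial ℕ}
  {S : ℕ → Polynomial ℕ} {Φ : Oracle → Oracle}

/-- the certificate: a string rejected without the secret of `x₀` is rejected by many others -/
theorem cert (hc : Cp g S (bt α) Φ) (C : Oracle) (V : Alg) {n K : ℕ} (hn : 1 ≤ n)
    {z : List Bool} (hz : (OP.qb V).eval z.length ≤ lam α n) (hK : V.p.eval z.length ≤ K)
    (c : List Bool → Option (List Bool)) (w : List.Vector Bool n → List.Vector Bool n)
    (x₀ : List.Vector Bool n) :
    ∃ (R U : Finset (List.Vector Bool n)), R.card ≤ K ∧ U.card ≤ K ∧ x₀ ∉ R ∧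
      ∀ w' : List.Vector Bool n → List.Vector Bool n, (∀ y ∈ R, w' y = w y) → w' x₀ ∉ U →
        V.out (oracle Φ C (ora (cw c n w' none))) z =
          V.out (oracle Φ C (ora (cw c n w (some x₀.1)))) z := by
  classical
  obtain ⟨Q, hQ1, hQ2⟩ := out_stable hc V hn C (ora (cw c n w (some x₀.1))) hz
  refine ⟨Finset.univ.filter fun x : List.Vector Bool n => x ≠ x₀ ∧
    x.1 ∈ Q.image (fun y => (unpair y).1),
    Finset.univ.filter fun u : List.Vector Bool n => pairBits x₀.1 u.1 ∈ Q, ?_, ?_, ?_,
    fun w' h1 h2 => hQ2 _ (fun y hy => ?_) fun y hy => ?_⟩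
  · refine (Finset.card_le_card_of_injOn (t := Q.image (fun y => (unpair y).1)) (fun x => x.1)
      ?_ ?_).trans (Finset.card_image_le.trans (hQ1.trans hK))
    · intro x hx
      exact (Finset.mem_filter.1 (Finset.mem_coe.1 hx)).2.2
    · intro x _ x' _ h
      exact Subtype.ext h
  · refine (Finset.card_le_card_of_injOn (t := Q) (fun u => pairBits x₀.1 u.1)
      ?_ ?_).trans (hQ1.trans hK)
    · intro u hu
      exact (Finset.mem_filter.1 (Finset.mem_coe.1 hu)).2
    · intro u _ u' _ h
      exact Subtype.ext (pairBits_inj h).2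
  · simp
  · -- short strings
    apply bool_eq
    have key : ∀ (w₁ : List.Vector Bool n → List.Vector Bool n) (o : Option (List Bool)),
        ora (cw c n w₁ o) y = true ↔ ∃ x u, y = pairBits x u ∧ c x = some u := by
      intro w₁ o
      rw [ora_iff]
      constructor
      · rintro ⟨x, u, rfl, h⟩
        refine ⟨x, u, rfl, ?_⟩
        rw [length_pb] at hy
        unfold cw at h
        rw [dif_neg (by omega)] at h
        exact h
      · rintro ⟨x, u, rfl, h⟩
        refine ⟨x, u, rfl, ?_⟩
        rw [length_pb] at hy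
        unfold cw
        rw [dif_neg (by omega)]
        exact h
    rw [key, key]
  · apply bool_eq
    rw [ora_iff, ora_iff]
    constructor
    · rintro ⟨x, u, rfl, h⟩
      refine ⟨x, u, rfl, ?_⟩
      unfold cw at h ⊢
      by_cases hxn : x.length = n
      · rw [dif_pos hxn, if_neg (by simp)] at h
        rw [dif_pos hxn]
        by_cases hx0 : x = x₀.1
        · exfalso
          subst hx0
          apply h2
          rw [Finset.mem_filter]
          refine ⟨Finset.mem_univ _, ?_⟩
          rw [Option.some.injEq] at h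
          have h3 : (w' x₀).1 = u := h
          rw [h3]
          exact hy
        · rw [if_neg (by simpa using hx0), ← h1 ⟨x, hxn⟩, h]
          rw [Finset.mem_filter]
          refine ⟨Finset.mem_univ _, fun h3 => hx0 (congrArg Subtype.val h3), ?_⟩
          rw [Finset.mem_image]
          exact ⟨_, hy, by rw [unpair_pairBits]⟩
      · rw [dif_neg hxn] at h ⊢
        exact h
    · rintro ⟨x, u, rfl, h⟩
      refine ⟨x, u, rfl, ?_⟩
      unfold cw at h ⊢
      by_cases hxn : x.length = n
      · rw [dif_pos hxn] at h
        rw [dif_pos hxn, if_neg (by simp)]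
        by_cases hx0 : x = x₀.1
        · subst hx0
          rw [if_pos rfl] at h
          exact absurd h (by simp)
        · rw [if_neg (by simpa using hx0)] at h
          rw [h1 ⟨x, hxn⟩, h]
          rw [Finset.mem_filter]
          refine ⟨Finset.mem_univ _, fun h3 => hx0 (congrArg Subtype.val h3), ?_⟩
          rw [Finset.mem_image]
          exact ⟨_, hy, by rw [unpair_pairBits]⟩
      · rw [dif_neg hxn] at h ⊢
        exact h

/-- the strings of length `j` -/
noncomputable def words (j : ℕ) : Finset (List Bool) := by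
  classical
  exact (Finset.univ : Finset (List.Vector Bool j)).image fun v => v.toList

theorem card_words (j : ℕ) : (words j).card ≤ 2 ^ j := by
  classical
  unfold words
  refine Finset.card_image_le.trans ?_
  rw [Finset.card_univ, card_vector, Fintype.card_bool]

theorem mem_words (u : List Bool) (j : ℕ) (h : u.length = j) : u ∈ words j := by
  classical
  unfold words
  rw [Finset.mem_image]
  exact ⟨(⟨u, h⟩ : List.Vector Bool j), Finset.mem_univ _, rfl⟩

/-- there are at most `2 ^ (2 m)` strings of length at most `m` in a finite set -/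
theorem card_short (s : Finset (List Bool)) (m : ℕ) (h : ∀ u ∈ s, u.length ≤ m) :
    s.card ≤ 2 ^ (2 * m) := by
  classical
  have h1 : s ⊆ (Finset.range (m + 1)).biUnion words := by
    intro u hu
    rw [Finset.mem_biUnion]
    exact ⟨u.length, Finset.mem_range.2 (by have := h u hu; omega), mem_words u _ rfl⟩
  refine (Finset.card_le_card h1).trans (Finset.card_biUnion_le.trans ?_)
  refine (Finset.sum_le_card_nsmul _ _ (2 ^ m) fun j hj => ?_).trans ?_
  · refine (card_words j).trans ?_
    exact Nat.pow_le_pow_right (by norm_num) (by rw [Finset.mem_range] at hj; omega)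
  · rw [Finset.card_range, smul_eq_mul, two_mul, pow_add]
    exact Nat.mul_le_mul_right _ Nat.lt_two_pow_self

/-- **One stage.** The machine errs for some secrets. -/
theorem stage (hc : Cp g S (bt α) Φ) (C : Oracle) (V : Alg) {n K m : ℕ} (hn : 1 ≤ n)
    (hz : ∀ z : List Bool, z.length ≤ 2 * n + 2 + 3 * m → (OP.qb V).eval z.length ≤ lam α n)
    (hK : ∀ z : List Bool, z.length ≤ 2 * n + 2 + 3 * m → V.p.eval z.length ≤ K)
    (h1 : 2 * (2 * m + 2) ^ 2 * (K + 1 + 1) ≤ 2 ^ n) (h2 : 2 * (K + 1) ≤ 2 ^ n)
    (c : List Bool → Option (List Bool)) :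
    ∃ w : List.Vector Bool n → List.Vector Bool n,
      ¬ Acc V m (oracle Φ C (ora (cw c n w none))) n ∨
      ∃ x₀ : List.Vector Bool n, Acc V m (oracle Φ C (ora (cw c n w (some x₀.1)))) n := by
  classical
  by_contra hcon
  push Not at hcon
  choose u hu1 hu2 using fun w => (hcon w).1
  set M := Fintype.card (List.Vector Bool n) with hM
  have hMn : M = 2 ^ n := by rw [hM, card_vector, Fintype.card_bool]
  set t := 2 * m + 2 with ht
  have hlen : ∀ (a b : List Bool), a.length ≤ m → b.length ≤ m →
      (pairBits (List.replicate n true) (pairBits a b)).length ≤ 2 * n + 2 + 3 * m := by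
    intro a b ha hb
    rw [length_pb, length_pb, List.length_replicate]
    omega
  have hfib : ∀ a ∈ (Finset.univ : Finset (List.Vector Bool n → List.Vector Bool n)).image u,
      (Finset.univ.filter fun w => u w = a).card ≤ 2 * ((K + 1) ^ t * M ^ (M - t)) := by
    intro a ha
    have ham : a.length ≤ m := by
      obtain ⟨w, -, rfl⟩ := Finset.mem_image.1 ha
      exact hu1 w
    -- rejected strings
    have hrej : ∀ (w : List.Vector Bool n → List.Vector Bool n) (x₀ : List.Vector Bool n),
        ∃ v : List Bool, v.length ≤ m ∧ V.out (oracle Φ C (ora (cw c n w (some x₀.1))))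
          (pairBits (List.replicate n true) (pairBits a v)) ≠ some [true] := by
      intro w x₀
      by_contra h
      push Not at h
      exact (hcon w).2 x₀ ⟨a, ham, h⟩
    choose v hv1 hv2 using hrej
    choose R U hR hU hx hRU using fun (w : List.Vector Bool n → List.Vector Bool n)
      (x₀ : List.Vector Bool n) => cert hc C V hn
        (hz _ (hlen a (v w x₀) ham (hv1 w x₀))) (hK _ (hlen a (v w x₀) ham (hv1 w x₀))) c w x₀
    refine ppz (Finset.univ.filter fun w => u w = a) R U (K + 1) t (fun w _ x => ?_)
      (fun w _ x => hx w x) (fun w _ x => ?_) (fun w hw w' hw' x hagree => ?_) ?_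
    · exact (hR w x).trans (Nat.le_succ _)
    · exact (hU w x).trans (Nat.le_succ _)
    · by_contra hU'
      have h3 := hRU w x w' hagree hU'
      rw [Finset.mem_filter] at hw'
      have h4 := hu2 w' (v w x) (hv1 w x)
      rw [hw'.2] at h4
      exact hv2 w x (h3.symm.trans h4)
    · rw [← hM, hMn]
      exact h1
  have h3 := Finset.card_le_mul_card_image (f := u) Finset.univ _ hfib
  have h4 := card_short (Finset.univ.image u) m (by
    intro a ha
    obtain ⟨w, -, rfl⟩ := Finset.mem_image.1 ha
    exact hu1 w)
  rw [Finset.card_univ, Fintype.card_fun, ← hM] at h3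
  have h5 : M ^ M ≤ 2 * ((K + 1) ^ t * M ^ (M - t)) * 2 ^ (2 * m) :=
    h3.trans (Nat.mul_le_mul_left _ h4)
  have htM : t ≤ M := by
    rw [hMn]
    refine le_trans ?_ h1
    nlinarith [Nat.zero_le K, Nat.zero_le m]
  have h6 : M ^ M = M ^ t * M ^ (M - t) := by
    rw [← pow_add]
    congr 1
    omega
  rw [h6] at h5
  have hMp : 0 < M ^ (M - t) := by
    rw [hMn]
    positivity
  have h7 : M ^ t ≤ 2 * (K + 1) ^ t * 2 ^ (2 * m) := by
    refine Nat.le_of_mul_le_mul_right ?_ hMp
    calc M ^ t * M ^ (M - t) ≤ _ := h5
      _ = _ := by ring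
  have h8 : (2 * (K + 1)) ^ t ≤ M ^ t := Nat.pow_le_pow_left (by rw [hMn]; exact h2) _
  rw [mul_pow] at h8
  have h9 : 2 ^ t * (K + 1) ^ t ≤ 2 ^ (2 * m + 1) * (K + 1) ^ t := by
    calc _ ≤ _ := h8.trans h7
      _ = _ := by ring
  have h10 : 2 ^ t ≤ 2 ^ (2 * m + 1) := Nat.le_of_mul_le_mul_right h9 (by positivity)
  have h11 := (Nat.pow_le_pow_iff_right (by norm_num : 1 < 2)).1 h10
  omega

end

end Pool.Agent.J6H49.LC
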